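import Pool.Agent.Helper75.CF.Defs

/-!
# The linking form and the coefficients of a class
-/

set_option autoImplicit false

namespace Pool.Agent.Helper75.CF

variable {p : ℕ} [NeZero p] {P : Type} [Fintype P] [DecidableEq P]

/-- Reduction modulo `p`. -/
def rd {k : ℕ} (hk : 0 < k) : ZMod (p ^ k) →+* ZMod p :=
  ZMod.castHom (dvd_pow_self p hk.ne') (ZMod p)

lemma circ_rd {k : ℕ} (hk : 0 < k) (a : ZMod (p ^ k)) :
    ZMod.toAddCircle (rd hk a) = p ^ (k - 1) • ZMod.toAddCircle a := by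
  obtain ⟨z, rfl⟩ := ZMod.intCast_surjective a
  have h1 : rd hk ((z : ℤ) : ZMod (p ^ k)) = ((z : ℤ) : ZMod p) := by simp [rd]
  rw [h1, ZMod.toAddCircle_intCast, ZMod.toAddCircle_intCast]
  have hp : (p : ℝ) ≠ 0 := by exact_mod_cast NeZero.ne p
  obtain ⟨m, rfl⟩ : ∃ m, k = m + 1 := ⟨k - 1, by omega⟩
  have h2 : ((z : ℝ) / (p : ℝ)) = p ^ m • ((z : ℝ) / ((p ^ (m + 1) : ℕ) : ℝ)) := by
    rw [nsmul_eq_mul]
    push_cast
    rw [pow_succ]
    field_simp
  rw [h2, AddCircle.coe_nsmul, Nat.add_sub_cancel]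

lemma circ_mul {N : ℕ} [NeZero N] (m : ℕ) (a : ZMod N) :
    m • ZMod.toAddCircle a = ZMod.toAddCircle ((m : ZMod N) * a) := by
  rw [← nsmul_eq_mul, map_nsmul]

lemma rd_eq_zero {k m : ℕ} (hk : 0 < k) (hm : m < k) (a : ZMod (p ^ k))
    (h : ((p ^ m : ℕ) : ZMod (p ^ k)) * a = 0) : rd hk a = 0 := by
  rw [← ZMod.toAddCircle_eq_zero, circ_rd hk]
  have h1 : p ^ (k - 1) = p ^ m * p ^ (k - 1 - m) := by rw [← pow_add]; congr 1; omega
  rw [h1, mul_nsmul, circ_mul, h, map_zero, nsmul_zero]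

omit [DecidableEq P] in
lemma link_add_left (e : P → ℕ) (x x' y : Grp p e) :
    link p e (x + x') y = link p e x y + link p e x' y := by
  unfold link
  rw [← Finset.sum_add_distrib]
  refine Finset.sum_congr rfl fun i _ => ?_
  rw [← map_add]
  congr 1
  simp only [Pi.add_apply, Prod.fst_add, Prod.snd_add]
  ring

omit [DecidableEq P] in
lemma link_comm (e : P → ℕ) (x y : Grp p e) : link p e x y = link p e y x := by
  unfold link
  refine Finset.sum_congr rfl fun i _ => ?_
  congr 1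
  ring

lemma link_add_right (e : P → ℕ) (x y y' : Grp p e) :
    link p e x (y + y') = link p e x y + link p e x y' := by
  rw [link_comm, link_add_left, link_comm e y, link_comm e y']

lemma link_gen (e : P → ℕ) (x : Grp p e) (j : P) (b : Bool) :
    link p e x (gen p e (j, b)) = ZMod.toAddCircle (if b then (x j).1 else (x j).2) := by
  unfold link
  rw [Finset.sum_eq_single j]
  · cases b <;> simp [gen]
  · intro i _ hi
    simp [gen, Pi.single_eq_of_ne hi]
  · simp

lemma apply_eq_sum (e : P → ℕ) (he : ∀ i, 0 < e i) (f : Grp p e →+ ZMod p) (x : Grp p e) :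
    f x = ∑ j, (f (gen p e (j, false)) * rd (he j) (x j).1 +
      f (gen p e (j, true)) * rd (he j) (x j).2) := by
  conv_lhs => rw [← Finset.univ_sum_single x, map_sum]
  refine Finset.sum_congr rfl fun j _ => ?_
  have h1 : (Pi.single j (x j) : Grp p e) =
      (x j).1.val • gen p e (j, false) + (x j).2.val • gen p e (j, true) := by
    funext i
    by_cases hi : i = j
    · subst hi
      rw [Pi.single_eq_same, Pi.add_apply, Pi.smul_apply, Pi.smul_apply]
      simp only [gen, Pi.single_eq_same]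
      ext <;> simp
    · simp [gen, Pi.single_eq_of_ne hi]
  rw [h1, map_add, map_nsmul, map_nsmul, nsmul_eq_mul, nsmul_eq_mul]
  have h2 : ∀ a : ZMod (p ^ e j), ((a.val : ℕ) : ZMod p) = rd (he j) a := by
    intro a
    simp [rd]
  rw [h2, h2]
  ring

end Pool.Agent.Helper75.CF
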