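import Mathlib

/-!
# Splittings of torsion linking forms with triple cup products

The algebraic data of a closed oriented 3-manifold `M` with finite first homology: the group
`G = H_1(M)`, the linking form on `G` and the triple cup product form on
`H^1(M; ℤ/p) = Hom(G, ℤ/p)`. If `M` embeds in the 4-sphere, then the data split: the kernels `K` and
`L` of the maps from `G` to the first homology of the two sides are complementary subgroups, the
linking form vanishes on each of them, and the triple product of three classes that come from one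
side vanishes; a class comes from one side if and only if it vanishes on `K` (or on `L`).
-/

set_option autoImplicit false

namespace Pool.Agent.Helper75.CF

/-- `G` is the direct sum of two subgroups `K` and `L`; `lk` vanishes on `K` and on `L`; `mu` vanishes
on all triples of homomorphisms `G → ℤ/p` that are zero on `K`, and on all triples of homomorphisms
that are zero on `L`. -/
def Splits {p : ℕ} {G : Type} [AddCommGroup G] (lk : G → G → UnitAddCircle)
    (mu : (G →+ ZMod p) → (G →+ ZMod p) → (G →+ ZMod p) → ZMod p) : Prop :=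
  ∃ K L : AddSubgroup G, IsCompl K L ∧
    (∀ x ∈ K, ∀ y ∈ K, lk x y = 0) ∧ (∀ x ∈ L, ∀ y ∈ L, lk x y = 0) ∧
    (∀ f g h : G →+ ZMod p, (∀ x ∈ K, f x = 0 ∧ g x = 0 ∧ h x = 0) → mu f g h = 0) ∧
    (∀ f g h : G →+ ZMod p, (∀ x ∈ L, f x = 0 ∧ g x = 0 ∧ h x = 0) → mu f g h = 0)

variable (p : ℕ) [NeZero p] {P : Type} [Fintype P] [DecidableEq P]

/-- The group `⨁ (ℤ/p^(e i))²`, the sum over all `i` in `P`. -/
abbrev Grp {P : Type} (e : P → ℕ) : Type := ∀ i : P, ZMod (p ^ e i) × ZMod (p ^ e i)

/-- The hyperbolic linking form `∑ (x_i y_i' + x_i' y_i) / p^(e i)` in `ℝ/ℤ`. -/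
noncomputable def link (e : P → ℕ) (x y : Grp p e) : UnitAddCircle :=
  ∑ i, ZMod.toAddCircle ((x i).1 * (y i).2 + (x i).2 * (y i).1)

/-- The generator of the group with index `a`: the first (`a.2 = false`) or second (`a.2 = true`)
generator of the summand `(ℤ/p^(e a.1))²`. -/
def gen (e : P → ℕ) (a : P × Bool) : Grp p e :=
  Pi.single a.1 (if a.2 then (0, 1) else (1, 0))

/-- The alternating form `∑ c a b d * f_a * g_b * h_d`, where `f_a` is the value of `f` at the
generator `a`. -/
def cup (e : P → ℕ) (c : P × Bool → P × Bool → P × Bool → ZMod p) (f g h : Grp p e →+ ZMod p) :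
    ZMod p :=
  ∑ a, ∑ b, ∑ d, c a b d * f (gen p e a) * g (gen p e b) * h (gen p e d)

/-- The array `c` is alternating. -/
def IsAlt {X R : Type} [Neg R] (c : X → X → X → R) : Prop :=
  (∀ x y z, c y x z = -c x y z) ∧ ∀ x y z, c x z y = -c x y z

/-- Colourings of `P` with two colours such that `c` vanishes on all triples of elements
`(i, s i)` and on all triples of elements `(i, !s i)`. -/
def Colouring {X R : Type} [Zero R] (c : X × Bool → X × Bool → X × Bool → R) (s : X → Bool) : Prop :=
  ∀ i j k, c (i, s i) (j, s j) (k, s k) = 0 ∧ c (i, !s i) (j, !s j) (k, !s k) = 0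

end Pool.Agent.Helper75.CF
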