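import Pool.Agent.Helper75.CF.Key

/-!
# The data split if and only if there is a colouring
-/

set_option autoImplicit false

namespace Pool.Agent.Helper75.CF

variable {p : ℕ} [NeZero p] {P : Type} [Fintype P] [DecidableEq P]

lemma eq_not_of_ne {a b : Bool} (h : ¬ a = b) : a = !b := by
  revert h
  cases a <;> cases b <;> decide

lemma cup_eq (e : P → ℕ) (hinj : Function.Injective e)
    (c : P × Bool → P × Bool → P × Bool → ZMod p)
    (hc : ∀ a b d a' b' d', c a b d ≠ 0 → c a' b' d' ≠ 0 → e a.1 ≤ e a'.1 → e b.1 ≤ e b'.1 →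
      e d.1 ≤ e d'.1 → a.1 = a'.1 ∧ b.1 = b'.1 ∧ d.1 = d'.1)
    (i j k : P) (r : P → Bool) (f g h : Grp p e →+ ZMod p)
    (hf : ∀ l b, e l < e i → f (gen p e (l, b)) = 0)
    (hg : ∀ l b, e l < e j → g (gen p e (l, b)) = 0)
    (hh : ∀ l b, e l < e k → h (gen p e (l, b)) = 0)
    (hf1 : f (gen p e (i, r i)) = 1) (hf0 : f (gen p e (i, !r i)) = 0)
    (hg1 : g (gen p e (j, r j)) = 1) (hg0 : g (gen p e (j, !r j)) = 0)
    (hh1 : h (gen p e (k, r k)) = 1) (hh0 : h (gen p e (k, !r k)) = 0)
    (h0 : c (i, r i) (j, r j) (k, r k) ≠ 0) :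
    cup p e c f g h = c (i, r i) (j, r j) (k, r k) := by
  have aux : ∀ (l : P) (F : Grp p e →+ ZMod p) (a : P × Bool),
      (∀ m b, e m < e l → F (gen p e (m, b)) = 0) → F (gen p e a) ≠ 0 → e l ≤ e a.1 := by
    intro l F a hF ha
    by_contra hlt
    exact ha (hF a.1 a.2 (not_le.1 hlt))
  have aux2 : ∀ (l : P) (F : Grp p e →+ ZMod p) (a : P × Bool), F (gen p e (l, !r l)) = 0 →
      F (gen p e a) ≠ 0 → l = a.1 → a = (l, r l) := by
    intro l F a hF ha hl
    subst hl
    obtain ⟨a1, a2⟩ := a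
    ext
    · rfl
    · by_contra hne
      have : a2 = !r a1 := eq_not_of_ne hne
      rw [this] at ha
      exact ha hF
  have key : ∀ a b d, c a b d * f (gen p e a) * g (gen p e b) * h (gen p e d) ≠ 0 →
      a = (i, r i) ∧ b = (j, r j) ∧ d = (k, r k) := by
    intro a b d hne
    have hd : h (gen p e d) ≠ 0 := right_ne_zero_of_mul hne
    have hne' := left_ne_zero_of_mul hne
    have hb : g (gen p e b) ≠ 0 := right_ne_zero_of_mul hne'
    have hne'' := left_ne_zero_of_mul hne'
    have ha : f (gen p e a) ≠ 0 := right_ne_zero_of_mul hne''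
    have hcc : c a b d ≠ 0 := left_ne_zero_of_mul hne''
    obtain ⟨q1, q2, q3⟩ := hc _ _ _ _ _ _ h0 hcc (aux i f a hf ha) (aux j g b hg hb)
      (aux k h d hh hd)
    exact ⟨aux2 i f a hf0 ha q1, aux2 j g b hg0 hb q2, aux2 k h d hh0 hd q3⟩
  unfold cup
  rw [Finset.sum_eq_single (i, r i), Finset.sum_eq_single (j, r j),
    Finset.sum_eq_single (k, r k), hf1, hg1, hh1]
  · ring
  · intro d _ hd
    by_contra hne
    exact hd (key _ _ _ hne).2.2
  · simp
  · intro b _ hb
    refine Finset.sum_eq_zero fun d _ => ?_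
    by_contra hne
    exact hb (key _ _ _ hne).2.1
  · simp
  · intro a _ ha
    refine Finset.sum_eq_zero fun b _ => Finset.sum_eq_zero fun d _ => ?_
    by_contra hne
    exact ha (key _ _ _ hne).1
  · simp

/-- The elements whose coordinate `s i` at the position `i` is zero, for all `i`. -/
def coordSub (e : P → ℕ) (s : P → Bool) : AddSubgroup (Grp p e) where
  carrier := {x | ∀ i, (if s i then (x i).2 else (x i).1) = 0}
  zero_mem' := by intro i; simp
  add_mem' := by
    intro x y hx hy i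
    have h1 := hx i
    have h2 := hy i
    simp only [Pi.add_apply]
    cases h : s i
    · simp only [h, Bool.false_eq_true, if_false] at h1 h2 ⊢
      rw [Prod.fst_add, h1, h2, add_zero]
    · simp only [h, if_true] at h1 h2 ⊢
      rw [Prod.snd_add, h1, h2, add_zero]
  neg_mem' := by
    intro x hx i
    have h1 := hx i
    simp only [Pi.neg_apply]
    cases h : s i
    · simp only [h, Bool.false_eq_true, if_false] at h1 ⊢
      rw [Prod.fst_neg, h1, neg_zero]
    · simp only [h, if_true] at h1 ⊢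
      rw [Prod.snd_neg, h1, neg_zero]

omit [NeZero p] [Fintype P] in
lemma mem_coordSub (e : P → ℕ) (s : P → Bool) (x : Grp p e) :
    x ∈ coordSub e s ↔ ∀ i, (if s i then (x i).2 else (x i).1) = 0 := Iff.rfl

lemma coordSub_compl (e : P → ℕ) (s : P → Bool) :
    IsCompl (coordSub (p := p) e s) (coordSub e fun i => !s i) := by
  constructor
  · rw [AddSubgroup.disjoint_def]
    intro x hx hy
    funext i
    have h1 := (mem_coordSub e _ x).1 hx i
    have h2 := (mem_coordSub e _ x).1 hy i
    cases h : s i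
    · simp only [h, Bool.not_false, Bool.false_eq_true, if_false, if_true] at h1 h2
      exact Prod.ext h1 h2
    · simp only [h, Bool.not_true, Bool.false_eq_true, if_false, if_true] at h1 h2
      exact Prod.ext h2 h1
  · rw [codisjoint_iff, eq_top_iff]
    intro x _
    rw [AddSubgroup.mem_sup]
    refine ⟨fun i => if s i then ((x i).1, 0) else (0, (x i).2), ?_,
      fun i => if s i then (0, (x i).2) else ((x i).1, 0), ?_, ?_⟩
    · rw [mem_coordSub]
      intro i
      cases h : s i <;> simp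
    · rw [mem_coordSub]
      intro i
      cases h : s i <;> simp
    · funext i
      cases h : s i <;> simp [h]

lemma link_coordSub (e : P → ℕ) (s : P → Bool) (x y : Grp p e) (hx : x ∈ coordSub e s)
    (hy : y ∈ coordSub e s) : link p e x y = 0 := by
  unfold link
  refine Finset.sum_eq_zero fun i _ => ?_
  have h1 := (mem_coordSub e _ x).1 hx i
  have h2 := (mem_coordSub e _ y).1 hy i
  cases h : s i
  · simp only [h, Bool.false_eq_true, if_false] at h1 h2
    rw [h1, h2]; simp
  · simp only [h, if_true] at h1 h2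
    rw [h1, h2]; simp

lemma gen_mem (e : P → ℕ) (s : P → Bool) (i : P) : gen p e (i, !s i) ∈ coordSub e s := by
  rw [mem_coordSub]
  intro j
  by_cases hj : j = i
  · subst hj
    cases h : s j <;> simp [gen]
  · simp [gen, Pi.single_eq_of_ne hj]

lemma cup_coordSub (e : P → ℕ) (s : P → Bool) (c : P × Bool → P × Bool → P × Bool → ZMod p)
    (hs : ∀ i j k, c (i, s i) (j, s j) (k, s k) = 0) (f g h : Grp p e →+ ZMod p)
    (hz : ∀ x ∈ coordSub e s, f x = 0 ∧ g x = 0 ∧ h x = 0) : cup p e c f g h = 0 := by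
  have hb : ∀ (i : P) (b : Bool), b = s i ∨ b = !s i := by
    intro i b
    cases b <;> cases h : s i <;> simp
  unfold cup
  refine Finset.sum_eq_zero fun a _ => Finset.sum_eq_zero fun b _ =>
    Finset.sum_eq_zero fun d _ => ?_
  obtain ⟨a1, a2⟩ := a
  obtain ⟨b1, b2⟩ := b
  obtain ⟨d1, d2⟩ := d
  rcases hb a1 a2 with ha | ha
  · rcases hb b1 b2 with hb' | hb'
    · rcases hb d1 d2 with hd | hd
      · rw [ha, hb', hd, hs]; simp
      · rw [hd, (hz _ (gen_mem e s d1)).2.2]; simp
    · rw [hb', (hz _ (gen_mem e s b1)).2.1]; simp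
  · rw [ha, (hz _ (gen_mem e s a1)).1]; simp

/-- The data split if and only if there is a colouring, for arrays whose support is an antichain. -/
theorem splits_iff (hp : p.Prime) (hp2 : p ≠ 2) (e : P → ℕ) (he : ∀ i, 0 < e i)
    (hinj : Function.Injective e) (c : P × Bool → P × Bool → P × Bool → ZMod p)
    (hc : ∀ a b d a' b' d', c a b d ≠ 0 → c a' b' d' ≠ 0 → e a.1 ≤ e a'.1 → e b.1 ≤ e b'.1 →
      e d.1 ≤ e d'.1 → a.1 = a'.1 ∧ b.1 = b'.1 ∧ d.1 = d'.1) :
    Splits (link p e) (cup p e c) ↔ ∃ s : P → Bool, Colouring c s := by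
  have : Fact p.Prime := ⟨hp⟩
  constructor
  · rintro ⟨K, L, hKL, hK, hL, hcK, hcL⟩
    choose s f g hfK hgL hf hg hf1 hf0 hg1 hg0 using
      letters hp hp2 e he hinj hKL hK hL
    refine ⟨s, fun i j k => ⟨?_, ?_⟩⟩
    · by_contra hne
      have h1 := cup_eq e hinj c hc i j k s (f i) (f j) (f k) (hf i) (hf j) (hf k) (hf1 i)
        (hf0 i) (hf1 j) (hf0 j) (hf1 k) (hf0 k) hne
      exact hne (h1.symm.trans (hcK _ _ _ fun x hx => ⟨hfK i x hx, hfK j x hx, hfK k x hx⟩))
    · by_contra hne
      have h1 := cup_eq e hinj c hc i j k (fun l => !s l) (g i) (g j) (g k) (hg i) (hg j) (hg k)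
        (hg1 i) (by simpa using hg0 i) (hg1 j) (by simpa using hg0 j) (hg1 k)
        (by simpa using hg0 k) hne
      exact hne (h1.symm.trans (hcL _ _ _ fun x hx => ⟨hgL i x hx, hgL j x hx, hgL k x hx⟩))
  · rintro ⟨s, hs⟩
    refine ⟨coordSub e s, coordSub e fun i => !s i, coordSub_compl e s,
      fun x hx y hy => link_coordSub e s x y hx hy,
      fun x hx y hy => link_coordSub e _ x y hx hy, ?_, ?_⟩
    · intro f g h hz
      exact cup_coordSub e s c (fun i j k => (hs i j k).1) f g h hz
    · intro f g h hz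
      exact cup_coordSub e (fun i => !s i) c (fun i j k => (hs i j k).2) f g h hz

end Pool.Agent.Helper75.CF
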