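import Pool.Agent.Helper75.CF.Basic

/-!
# The linking form forces one of the two coordinate classes
-/

set_option autoImplicit false

namespace Pool.Agent.Helper75.CF

variable {p : ℕ} [NeZero p] {P : Type} [Fintype P] [DecidableEq P]

lemma exists_proj {G : Type} [AddCommGroup G] {K L : AddSubgroup G} (h : IsCompl K L) :
    ∃ u v : G →+ G, (∀ x, u x ∈ K) ∧ (∀ x, v x ∈ L) ∧ (∀ x, u x + v x = x) ∧
      (∀ x ∈ K, v x = 0) ∧ (∀ x ∈ L, u x = 0) := by
  have h' : IsCompl (AddSubgroup.toIntSubmodule K) (AddSubgroup.toIntSubmodule L) :=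
    (OrderIso.isCompl_iff AddSubgroup.toIntSubmodule).1 h
  refine ⟨(Submodule.projection _ _ h').toAddMonoidHom,
    (Submodule.projection _ _ h'.symm).toAddMonoidHom, ?_, ?_, ?_, ?_, ?_⟩
  · intro x; exact Submodule.projection_apply_mem h' x
  · intro x; exact Submodule.projection_apply_mem h'.symm x
  · intro x; exact Submodule.projection_add_projection_eq_self h' x
  · intro x hx; exact Submodule.projection_apply_of_mem_right h'.symm hx
  · intro x hx; exact Submodule.projection_apply_of_mem_right h' hx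

lemma star (e : P → ℕ) (he : ∀ i, 0 < e i) {K L : AddSubgroup (Grp p e)}
    (hKL : ∀ x : Grp p e, ∃ k ∈ K, ∃ l ∈ L, k + l = x)
    (hK : ∀ x ∈ K, ∀ y ∈ K, link p e x y = 0) (hL : ∀ x ∈ L, ∀ y ∈ L, link p e x y = 0)
    (f : Grp p e →+ ZMod p) (hf : ∀ x ∈ K, f x = 0) (m : ℕ) (hm : 0 < m)
    (hfi : ∀ j b, e j < m → f (gen p e (j, b)) = 0) :
    ∃ k ∈ K, ∀ x, ZMod.toAddCircle (f x) = p ^ (m - 1) • link p e k x := by
  let h0 : Grp p e := fun j => if m ≤ e j then
    (((p ^ (e j - m) : ℕ) : ZMod (p ^ e j)) * (((f (gen p e (j, true))).val : ℕ) : ZMod (p ^ e j)),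
      ((p ^ (e j - m) : ℕ) : ZMod (p ^ e j)) * (((f (gen p e (j, false))).val : ℕ) : ZMod (p ^ e j)))
    else 0
  have key : ∀ x, ZMod.toAddCircle (f x) = p ^ (m - 1) • link p e h0 x := by
    intro x
    rw [apply_eq_sum e he f x, map_sum, link, Finset.smul_sum]
    refine Finset.sum_congr rfl fun j _ => ?_
    by_cases hj : m ≤ e j
    · have hr : ∀ a : ZMod p, rd (he j) ((a.val : ℕ) : ZMod (p ^ e j)) = a := by
        intro a; simp [rd]
      have h1 : (h0 j).1 * (x j).2 + (h0 j).2 * (x j).1 =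
          ((p ^ (e j - m) : ℕ) : ZMod (p ^ e j)) *
            ((((f (gen p e (j, true))).val : ℕ) : ZMod (p ^ e j)) * (x j).2 +
            (((f (gen p e (j, false))).val : ℕ) : ZMod (p ^ e j)) * (x j).1) := by
        simp only [h0, if_pos hj]
        ring
      have h2 : rd (he j) ((((f (gen p e (j, true))).val : ℕ) : ZMod (p ^ e j)) * (x j).2 +
            (((f (gen p e (j, false))).val : ℕ) : ZMod (p ^ e j)) * (x j).1) =
          f (gen p e (j, false)) * rd (he j) (x j).1 +
            f (gen p e (j, true)) * rd (he j) (x j).2 := by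
        rw [map_add, map_mul, map_mul, hr, hr]
        ring
      rw [h1, ← circ_mul, ← mul_nsmul, ← pow_add,
        show e j - m + (m - 1) = e j - 1 by omega, ← circ_rd (he j), h2]
    · have h1 : h0 j = 0 := by simp only [h0, if_neg hj]
      rw [hfi j false (by omega), hfi j true (by omega), h1]
      simp
  obtain ⟨k, hk, l, hl, hkl⟩ := hKL h0
  refine ⟨k, hk, fun x => ?_⟩
  obtain ⟨y, hy, z, hz, rfl⟩ := hKL x
  have h1 := key z
  rw [← hkl, link_add_left, hL l hl z hz, add_zero] at h1
  rw [map_add, hf y hy, zero_add, link_add_right, hK k hk y hy, zero_add]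
  exact h1

lemma prod_zero (hp : p.Prime) (hp2 : p ≠ 2) (e : P → ℕ) (he : ∀ i, 0 < e i)
    (hinj : Function.Injective e) {K L : AddSubgroup (Grp p e)}
    (hKL : ∀ x : Grp p e, ∃ k ∈ K, ∃ l ∈ L, k + l = x)
    (hK : ∀ x ∈ K, ∀ y ∈ K, link p e x y = 0) (hL : ∀ x ∈ L, ∀ y ∈ L, link p e x y = 0)
    (f : Grp p e →+ ZMod p) (hf : ∀ x ∈ K, f x = 0) (i : P)
    (hfi : ∀ j b, e j < e i → f (gen p e (j, b)) = 0) :
    f (gen p e (i, false)) * f (gen p e (i, true)) = 0 := by
  have : Fact p.Prime := ⟨hp⟩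
  obtain ⟨k, hk, hs⟩ := star e he hKL hK hL f hf (e i) (he i) hfi
  -- the value at `k` is zero
  have h0 : f k = 0 := by
    rw [← ZMod.toAddCircle_eq_zero, hs k, hK k hk k hk, nsmul_zero]
  -- the coordinates of `k`
  have h1 : ∀ x, p ^ (e i) • link p e k x = 0 := by
    intro x
    have : p ^ (e i) = p ^ (e i - 1) * p := by
      rw [← pow_succ]; congr 1; have := he i; omega
    rw [this, mul_nsmul, ← hs x, circ_mul]
    simp
  have h2 : ∀ j, e i < e j → rd (he j) (k j).1 = 0 ∧ rd (he j) (k j).2 = 0 := by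
    intro j hj
    constructor
    · refine rd_eq_zero (he j) hj _ ?_
      have := h1 (gen p e (j, true))
      rw [link_gen, if_pos rfl, circ_mul, ZMod.toAddCircle_eq_zero] at this
      exact this
    · refine rd_eq_zero (he j) hj _ ?_
      have := h1 (gen p e (j, false))
      rw [link_gen, if_neg (by simp), circ_mul, ZMod.toAddCircle_eq_zero] at this
      exact this
  have h3 : rd (he i) (k i).1 = f (gen p e (i, true)) := by
    have := hs (gen p e (i, true))
    rw [link_gen, if_pos rfl, ← circ_rd (he i), ZMod.toAddCircle_inj] at this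
    exact this.symm
  have h4 : rd (he i) (k i).2 = f (gen p e (i, false)) := by
    have := hs (gen p e (i, false))
    rw [link_gen, if_neg (by simp), ← circ_rd (he i), ZMod.toAddCircle_inj] at this
    exact this.symm
  rw [apply_eq_sum e he f k, Finset.sum_eq_single i] at h0
  · rw [h3, h4] at h0
    have h5 : (2 : ZMod p) * (f (gen p e (i, false)) * f (gen p e (i, true))) = 0 := by
      rw [← h0]; ring
    rcases mul_eq_zero.1 h5 with h | h
    · exfalso
      have h6 : ((2 : ℕ) : ZMod p) = 0 := by exact_mod_cast h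
      rw [ZMod.natCast_eq_zero_iff] at h6
      exact hp2 ((Nat.prime_dvd_prime_iff_eq hp Nat.prime_two).1 h6)
    · exact h
  · intro j _ hj
    rcases lt_trichotomy (e j) (e i) with h | h | h
    · rw [hfi j false h, hfi j true h]; simp
    · exact absurd (hinj h) hj
    · rw [(h2 j h).1, (h2 j h).2]; simp
  · simp

/-- For every position `i` one of the two coordinate classes at `i` is, up to later positions, a
class that vanishes on `K`, and the other one is, up to later positions, a class that vanishes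
on `L`. -/
lemma letters (hp : p.Prime) (hp2 : p ≠ 2) (e : P → ℕ) (he : ∀ i, 0 < e i)
    (hinj : Function.Injective e) {K L : AddSubgroup (Grp p e)} (hc : IsCompl K L)
    (hK : ∀ x ∈ K, ∀ y ∈ K, link p e x y = 0) (hL : ∀ x ∈ L, ∀ y ∈ L, link p e x y = 0) (i : P) :
    ∃ (s : Bool) (f g : Grp p e →+ ZMod p), (∀ x ∈ K, f x = 0) ∧ (∀ x ∈ L, g x = 0) ∧
      (∀ j b, e j < e i → f (gen p e (j, b)) = 0) ∧ (∀ j b, e j < e i → g (gen p e (j, b)) = 0) ∧
      f (gen p e (i, s)) = 1 ∧ f (gen p e (i, !s)) = 0 ∧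
      g (gen p e (i, !s)) = 1 ∧ g (gen p e (i, s)) = 0 := by
  have : Fact p.Prime := ⟨hp⟩
  obtain ⟨u, v, hu, hv, huv, hvK, huL⟩ := exists_proj hc
  let F : Grp p e →+ ZMod p :=
    { toFun := fun x => rd (he i) (x i).1 + rd (he i) (x i).2
      map_zero' := by simp
      map_add' := fun x y => by
        simp only [Pi.add_apply, Prod.fst_add, Prod.snd_add, map_add]
        ring }
  have hF : ∀ x, F x = rd (he i) (x i).1 + rd (he i) (x i).2 := fun _ => rfl
  have hkill : ∀ (w : Grp p e →+ Grp p e) (j : P) (b : Bool), e j < e i →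
      F (w (gen p e (j, b))) = 0 := by
    intro w j b hj
    have h1 : p ^ (e j) • gen p e (j, b) = 0 := by
      unfold gen
      rw [← Pi.single_smul]
      have : (p ^ (e j) • (if b then ((0, 1) : ZMod (p ^ e j) × ZMod (p ^ e j)) else (1, 0))) = 0 := by
        cases b
        · ext <;> simp [nsmul_eq_mul, -Nat.cast_pow]
        · ext <;> simp [nsmul_eq_mul, -Nat.cast_pow]
      simp only at this ⊢
      rw [this, Pi.single_zero]
    have h2 : p ^ (e j) • w (gen p e (j, b)) = 0 := by rw [← map_nsmul, h1, map_zero]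
    have h3 := congrFun h2 i
    rw [Pi.smul_apply, Pi.zero_apply] at h3
    have h4 := congrArg Prod.fst h3
    have h5 := congrArg Prod.snd h3
    rw [Prod.smul_fst, nsmul_eq_mul] at h4
    rw [Prod.smul_snd, nsmul_eq_mul] at h5
    rw [hF, rd_eq_zero (he i) hj _ h4, rd_eq_zero (he i) hj _ h5, add_zero]
  have hFi : ∀ b, F (gen p e (i, b)) = 1 := by
    intro b
    rw [hF]
    cases b <;> simp [gen]
  have hKL : ∀ x : Grp p e, ∃ k ∈ K, ∃ l ∈ L, k + l = x := fun x =>
    ⟨u x, hu x, v x, hv x, huv x⟩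
  have hLK : ∀ x : Grp p e, ∃ l ∈ L, ∃ k ∈ K, l + k = x := fun x =>
    ⟨v x, hv x, u x, hu x, by rw [add_comm]; exact huv x⟩
  have hfK : ∀ x ∈ K, F.comp v x = 0 := fun x hx => by
    rw [AddMonoidHom.comp_apply, hvK x hx, map_zero]
  have hgL : ∀ x ∈ L, F.comp u x = 0 := fun x hx => by
    rw [AddMonoidHom.comp_apply, huL x hx, map_zero]
  have hsum : ∀ b, F.comp v (gen p e (i, b)) + F.comp u (gen p e (i, b)) = 1 := by
    intro b
    rw [AddMonoidHom.comp_apply, AddMonoidHom.comp_apply, ← map_add, add_comm, huv, hFi]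
  have e1 := prod_zero hp hp2 e he hinj hKL hK hL (F.comp v) hfK i (fun j b hj => hkill v j b hj)
  have e2 := prod_zero hp hp2 e he hinj hLK hL hK (F.comp u) hgL i (fun j b hj => hkill u j b hj)
  have s0 := hsum false
  have s1 := hsum true
  rcases mul_eq_zero.1 e1 with h | h
  · -- the class that vanishes on `K` has no first coordinate
    rw [h, zero_add] at s0
    have h' : F.comp u (gen p e (i, true)) = 0 := by
      rw [s0, one_mul] at e2; exact e2
    rw [h', add_zero] at s1
    exact ⟨true, F.comp v, F.comp u, hfK, hgL, fun j b hj => hkill v j b hj,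
      fun j b hj => hkill u j b hj, s1, h, s0, h'⟩
  · rw [h, zero_add] at s1
    have h' : F.comp u (gen p e (i, false)) = 0 := by
      rw [s1, mul_one] at e2; exact e2
    rw [h', add_zero] at s0
    exact ⟨false, F.comp v, F.comp u, hfK, hgL, fun j b hj => hkill v j b hj,
      fun j b hj => hkill u j b hj, s0, h, s1, h'⟩

end Pool.Agent.Helper75.CF
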