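import Pool.Agent.Helper75.CF.RedDefs

/-!
# The array of a hypergraph: proofs
-/

set_option autoImplicit false

namespace Pool.Agent.Helper75.CF

variable {n m : ℕ}

lemma fin_mul (q : ℕ) (t : Fin m) : q * (t : ℕ) + q ≤ q * m := by
  have h : (t : ℕ) + 1 ≤ m := t.2
  calc q * (t : ℕ) + q = q * ((t : ℕ) + 1) := by ring
    _ ≤ q * m := Nat.mul_le_mul_left q h

lemma fin_sep (q : ℕ) (t t' : Fin m) :
    t = t' ∨ q * (t : ℕ) + q ≤ q * (t' : ℕ) ∨ q * (t' : ℕ) + q ≤ q * (t : ℕ) := by
  rcases lt_trichotomy (t : ℕ) (t' : ℕ) with h | h | h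
  · right; left
    calc q * (t : ℕ) + q = q * ((t : ℕ) + 1) := by ring
      _ ≤ q * (t' : ℕ) := Nat.mul_le_mul_left q h
  · left; exact Fin.ext h
  · right; right
    calc q * (t' : ℕ) + q = q * ((t' : ℕ) + 1) := by ring
      _ ≤ q * (t : ℕ) := Nat.mul_le_mul_left q h

lemma expo_inj (E : Fin m → Fin 3 → Fin n) : Function.Injective (expo E) := by
  rintro (v | ⟨t, s⟩ | ⟨t, s⟩) (v' | ⟨t', s'⟩ | ⟨t', s'⟩) h
  · have hv := v.2
    simp only [expo] at h
    congr 1
    exact Fin.ext (by omega)
  · exfalso
    have hv := v.2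
    have h1 := fin_mul (n + 1) t'
    simp only [expo, slotExp, scale] at h
    fin_cases s' <;> simp at h <;> omega
  · exfalso
    have hv := v.2
    have h1 := fin_mul (n + 1) t'
    have h2 := (E t' s').2
    simp only [expo, slotExp, scale] at h
    fin_cases s' <;> simp at h h2 <;> omega
  · exfalso
    have hv := v'.2
    have h1 := fin_mul (n + 1) t
    simp only [expo, slotExp, scale] at h
    fin_cases s <;> simp at h <;> omega
  · have h1 := fin_mul (n + 1) t
    have h1' := fin_mul (n + 1) t'
    have h2 := fin_sep (n + 1) t t'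
    simp only [expo, slotExp, scale] at h
    have key : t = t' ∧ s = s' := by
      fin_cases s <;> fin_cases s' <;> simp at h ⊢ <;> omega
    rw [key.1, key.2]
  · exfalso
    have h1 := fin_mul (n + 1) t
    have h1' := fin_mul (n + 1) t'
    have h2 := (E t' s').2
    simp only [expo, slotExp, scale] at h
    fin_cases s <;> fin_cases s' <;> simp at h h2 <;> omega
  · exfalso
    have hv := v'.2
    have h1 := fin_mul (n + 1) t
    have h2 := (E t s).2
    simp only [expo, slotExp, scale] at h
    fin_cases s <;> simp at h h2 <;> omega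
  · exfalso
    have h1 := fin_mul (n + 1) t
    have h1' := fin_mul (n + 1) t'
    have h2 := (E t s).2
    simp only [expo, slotExp, scale] at h
    fin_cases s <;> fin_cases s' <;> simp at h h2 <;> omega
  · have h1 := fin_mul (n + 1) t
    have h1' := fin_mul (n + 1) t'
    have h2 := (E t s).2
    have h2' := (E t' s').2
    have h3 := fin_sep (n + 1) t t'
    simp only [expo, slotExp, scale] at h
    have key : t = t' ∧ s = s' := by
      fin_cases s <;> fin_cases s' <;> simp at h h2 h2' ⊢ <;> omega
    rw [key.1, key.2]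

lemma expo_pos (E : Fin m → Fin 3 → Fin n) (i : Pos n m) : 0 < expo E i := by
  rcases i with v | ⟨t, s⟩ | ⟨t, s⟩
  · simp [expo]
  · have h1 := fin_mul (n + 1) t
    simp only [expo, slotExp, scale]
    fin_cases s <;> simp <;> omega
  · have h1 := fin_mul (n + 1) t
    have h2 := (E t s).2
    simp only [expo, slotExp, scale]
    fin_cases s <;> simp at h2 ⊢ <;> omega

lemma expo_le (E : Fin m → Fin 3 → Fin n) (i : Pos n m) :
    expo E i ≤ 48 * (n + 1) * (m + 1) := by
  have h0 : 48 * (n + 1) * (m + 1) = 12 * scale n m := by unfold scale; ring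
  rw [h0]
  rcases i with v | ⟨t, s⟩ | ⟨t, s⟩
  · have := v.2
    simp only [expo, scale]
    omega
  · have h1 := fin_mul (n + 1) t
    simp only [expo, slotExp, scale]
    fin_cases s <;> simp <;> omega
  · simp only [expo]
    omega

lemma mono_sum (E : Fin m → Fin 3 → Fin n) (g : Mon m) :
    ∑ l, expo E (mono E g l).1 = 12 * scale n m := by
  rw [Fin.sum_univ_three]
  rcases g with t | ⟨t, s, b⟩
  · have h1 := fin_mul (n + 1) t
    simp [mono, expo, slotExp, scale]
    omega
  · have h1 := fin_mul (n + 1) t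
    have h2 := (E t s).2
    simp only [mono, expo, slotExp, scale]
    fin_cases s <;> simp at h2 ⊢ <;> omega

lemma isMono_sum (E : Fin m → Fin 3 → Fin n) {x y z : Pos n m × Bool} (h : IsMono E x y z) :
    expo E x.1 + expo E y.1 + expo E z.1 = 12 * scale n m := by
  obtain ⟨g, π, rfl, rfl, rfl⟩ := h
  rw [← mono_sum E g, ← Equiv.sum_comp π, Fin.sum_univ_three]

lemma isMono_swap (E : Fin m → Fin 3 → Fin n) {x y z : Pos n m × Bool} (h : IsMono E x y z) :
    IsMono E y x z := by
  obtain ⟨g, π, rfl, rfl, rfl⟩ := h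
  refine ⟨g, Equiv.swap 0 1 |>.trans π, ?_, ?_, ?_⟩
  · simp
  · simp
  · rw [Equiv.trans_apply, Equiv.swap_apply_of_ne_of_ne (by decide) (by decide)]

lemma isMono_swap' (E : Fin m → Fin 3 → Fin n) {x y z : Pos n m × Bool} (h : IsMono E x y z) :
    IsMono E x z y := by
  obtain ⟨g, π, rfl, rfl, rfl⟩ := h
  refine ⟨g, Equiv.swap 1 2 |>.trans π, ?_, ?_, ?_⟩
  · rw [Equiv.trans_apply, Equiv.swap_apply_of_ne_of_ne (by decide) (by decide)]
  · simp
  · simp

lemma sg_comm (a b : ℕ) : sg b a = -sg a b := by
  unfold sg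
  split_ifs <;> first | omega | rfl

lemma sg_cases (a b : ℕ) (h : a ≠ b) : sg a b = 1 ∨ sg a b = -1 := by
  unfold sg
  rcases lt_or_gt_of_ne h with h | h
  · left; rw [if_pos h]
  · right; rw [if_neg (by omega), if_pos h]

lemma arr_isAlt (E : Fin m → Fin 3 → Fin n) : IsAlt (arr E) := by
  constructor
  · intro x y z
    unfold arr
    by_cases h : IsMono E x y z
    · rw [if_pos h, if_pos (isMono_swap E h), sg_comm (expo E x.1) (expo E y.1)]
      ring
    · rw [if_neg h, if_neg fun h' => h (isMono_swap E h'), neg_zero]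
  · intro x y z
    unfold arr
    by_cases h : IsMono E x y z
    · rw [if_pos h, if_pos (isMono_swap' E h), sg_comm (expo E y.1) (expo E z.1)]
      ring
    · rw [if_neg h, if_neg fun h' => h (isMono_swap' E h'), neg_zero]

lemma mono_pos_inj (E : Fin m → Fin 3 → Fin n) (g : Mon m) (l l' : Fin 3) (h : l ≠ l') :
    (mono E g l).1 ≠ (mono E g l').1 := by
  rcases g with t | ⟨t, s, b⟩
  · simpa [mono] using h
  · fin_cases l <;> fin_cases l' <;> simp [mono] at h ⊢

lemma arr_of_isMono (E : Fin m → Fin 3 → Fin n) {x y z : Pos n m × Bool} (h : IsMono E x y z) :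
    arr E x y z = 1 ∨ arr E x y z = -1 := by
  have h' := h
  obtain ⟨g, π, rfl, rfl, rfl⟩ := h
  unfold arr
  rw [if_pos h']
  have hne : ∀ l l' : Fin 3, l ≠ l' →
      expo E (mono E g (π l)).1 ≠ expo E (mono E g (π l')).1 := fun l l' hl hh =>
    mono_pos_inj E g _ _ (fun hc => hl (π.injective hc)) (expo_inj E hh)
  rcases sg_cases _ _ (hne 0 1 (by decide)) with h1 | h1 <;>
  rcases sg_cases _ _ (hne 0 2 (by decide)) with h2 | h2 <;>
  rcases sg_cases _ _ (hne 1 2 (by decide)) with h3 | h3 <;>
  simp [h1, h2, h3]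

lemma arr_values (E : Fin m → Fin 3 → Fin n) (x y z : Pos n m × Bool) :
    arr E x y z = 0 ∨ arr E x y z = 1 ∨ arr E x y z = -1 := by
  by_cases h : IsMono E x y z
  · exact Or.inr (arr_of_isMono E h)
  · left; unfold arr; rw [if_neg h]

lemma arr_ne {p : ℕ} (hp : 1 < p) (E : Fin m → Fin 3 → Fin n) (x y z : Pos n m × Bool) :
    ((arr E x y z : ℤ) : ZMod p) ≠ 0 ↔ IsMono E x y z := by
  have : Fact (1 < p) := ⟨hp⟩
  constructor
  · intro h
    by_contra h'
    apply h
    unfold arr
    rw [if_neg h', Int.cast_zero]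
  · intro h
    rcases arr_of_isMono E h with h1 | h1
    · rw [h1, Int.cast_one]; exact one_ne_zero
    · rw [h1, Int.cast_neg, Int.cast_one]; exact neg_ne_zero.2 one_ne_zero

lemma antichain {p : ℕ} (hp : 1 < p) (E : Fin m → Fin 3 → Fin n) (a b d a' b' d' : Pos n m × Bool)
    (h : ((arr E a b d : ℤ) : ZMod p) ≠ 0) (h' : ((arr E a' b' d' : ℤ) : ZMod p) ≠ 0)
    (h1 : expo E a.1 ≤ expo E a'.1) (h2 : expo E b.1 ≤ expo E b'.1)
    (h3 : expo E d.1 ≤ expo E d'.1) : a.1 = a'.1 ∧ b.1 = b'.1 ∧ d.1 = d'.1 := by
  have s := isMono_sum E ((arr_ne hp E _ _ _).1 h)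
  have s' := isMono_sum E ((arr_ne hp E _ _ _).1 h')
  exact ⟨expo_inj E (by omega), expo_inj E (by omega), expo_inj E (by omega)⟩

/-- The colourings of the array correspond to the 2-colourings of the hypergraph. -/
lemma colouring_iff {p : ℕ} (hp : 1 < p) (E : Fin m → Fin 3 → Fin n) :
    (∃ s : Pos n m → Bool, Colouring (fun x y z => ((arr E x y z : ℤ) : ZMod p)) s) ↔
      TwoColourable E := by
  constructor
  · rintro ⟨s, hs⟩
    have h1 : ∀ i j k, ¬ IsMono E (i, s i) (j, s j) (k, s k) := fun i j k h =>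
      (arr_ne hp E _ _ _).2 h (hs i j k).1
    have h2 : ∀ i j k, ¬ IsMono E (i, !s i) (j, !s j) (k, !s k) := fun i j k h =>
      (arr_ne hp E _ _ _).2 h (hs i j k).2
    -- the colour of a slot is the colour of its vertex
    have h3 : ∀ t l, s (.inr (.inl (t, l))) = s (.inl (E t l)) := by
      intro t l
      by_contra hne
      cases hb : s (.inr (.inl (t, l))) with
      | true =>
        have hb' : s (.inl (E t l)) = false := by
          cases h : s (.inl (E t l))
          · rfl
          · exact absurd (hb.trans h.symm) hne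
        apply h1 (.inr (.inl (t, l))) (.inl (E t l)) (.inr (.inr (t, l)))
        refine ⟨.inr (t, l, s (.inr (.inr (t, l)))), 1, ?_, ?_, ?_⟩
        · simp [mono, hb]
        · simp [mono, hb']
        · simp [mono]
      | false =>
        have hb' : s (.inl (E t l)) = true := by
          cases h : s (.inl (E t l))
          · exact absurd (hb.trans h.symm) hne
          · rfl
        apply h2 (.inr (.inl (t, l))) (.inl (E t l)) (.inr (.inr (t, l)))
        refine ⟨.inr (t, l, !s (.inr (.inr (t, l)))), 1, ?_, ?_, ?_⟩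
        · simp [mono, hb]
        · simp [mono, hb']
        · simp [mono]
    refine ⟨fun v => s (.inl v), fun t ht => ?_⟩
    simp only [← h3] at ht
    cases hb : s (.inr (.inl (t, 0))) with
    | true =>
      have q1 : s (.inr (.inl (t, 1))) = true := by rw [← ht.1, hb]
      have q2 : s (.inr (.inl (t, 2))) = true := by rw [← ht.2, q1]
      apply h1 (.inr (.inl (t, 0))) (.inr (.inl (t, 1))) (.inr (.inl (t, 2)))
      refine ⟨.inl t, 1, ?_, ?_, ?_⟩
      · simp [mono, hb]
      · simp [mono, q1]
      · simp [mono, q2]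
    | false =>
      have q1 : s (.inr (.inl (t, 1))) = false := by rw [← ht.1, hb]
      have q2 : s (.inr (.inl (t, 2))) = false := by rw [← ht.2, q1]
      apply h2 (.inr (.inl (t, 0))) (.inr (.inl (t, 1))) (.inr (.inl (t, 2)))
      refine ⟨.inl t, 1, ?_, ?_, ?_⟩
      · simp [mono, hb]
      · simp [mono, q1]
      · simp [mono, q2]
  · rintro ⟨τ, hτ⟩
    let s : Pos n m → Bool := fun i => match i with
      | .inl v => τ v
      | .inr (.inl (t, l)) => τ (E t l)
      | .inr (.inr _) => false
    -- no monomial has all its elements in the class `s` or all outside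
    have key : ∀ (g : Mon m) (r : Bool), ¬ ∀ l, (mono E g l).2 = xor r (s (mono E g l).1) := by
      intro g r h
      rcases g with t | ⟨t, l, b⟩
      · have a0 := h 0
        have a1 := h 1
        have a2 := h 2
        simp only [mono, s] at a0 a1 a2
        apply hτ t
        revert a0 a1 a2
        cases r <;> cases τ (E t 0) <;> cases τ (E t 1) <;> cases τ (E t 2) <;> simp
      · have a0 := h 0
        have a1 := h 1
        simp only [mono, s, if_true, if_neg (show ¬ (1 : Fin 3) = 0 by decide)] at a0 a1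
        revert a0 a1
        cases r <;> cases τ (E t l) <;> simp
    have key2 : ∀ (r : Bool) (i j k : Pos n m),
        ¬ IsMono E (i, xor r (s i)) (j, xor r (s j)) (k, xor r (s k)) := by
      rintro r i j k ⟨g, π, h0, h1, h2⟩
      apply key g r
      have hall : ∀ l, (mono E g (π l)).2 = xor r (s (mono E g (π l)).1) := by
        intro l
        fin_cases l
        · show (mono E g (π 0)).2 = xor r (s (mono E g (π 0)).1)
          rw [← h0]
        · show (mono E g (π 1)).2 = xor r (s (mono E g (π 1)).1)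
          rw [← h1]
        · show (mono E g (π 2)).2 = xor r (s (mono E g (π 2)).1)
          rw [← h2]
      intro l
      have := hall (π.symm l)
      rwa [Equiv.apply_symm_apply] at this
    refine ⟨s, fun i j k => ⟨?_, ?_⟩⟩
    · by_contra h
      have h' := (arr_ne hp E _ _ _).1 h
      apply key2 false i j k
      simpa using h'
    · by_contra h
      have h' := (arr_ne hp E _ _ _).1 h
      apply key2 true i j k
      simpa using h'

end Pool.Agent.Helper75.CF
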