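import Pool.Agent.Helper75.CF.Defs

/-!
# The array of a 3-uniform hypergraph

A hypergraph with `n` vertices and `m` edges is given by `E : Fin m → Fin 3 → Fin n`; the edge `t`
has the slots `(t, 0)`, `(t, 1)`, `(t, 2)`, and the vertex in the slot `(t, s)` is `E t s`.
-/

set_option autoImplicit false

namespace Pool.Agent.Helper75.CF

/-- Positions: the vertices, the slots of the edges, and one helper for every slot. -/
abbrev Pos (n m : ℕ) : Type := Fin n ⊕ (Fin m × Fin 3) ⊕ (Fin m × Fin 3)

/-- The scale of the exponents. -/
def scale (n m : ℕ) : ℕ := 4 * ((n + 1) * m) + 4 * (n + 1)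

/-- The exponents of the slots; the three slots of an edge have the sum `12 * scale n m`. -/
def slotExp (n m : ℕ) (t : Fin m) (s : Fin 3) : ℕ :=
  if s = 0 then 3 * scale n m + (n + 1) * (t : ℕ)
  else if s = 1 then 4 * scale n m + (n + 1) * (t : ℕ)
  else 5 * scale n m - 2 * ((n + 1) * (t : ℕ))

/-- The exponents of all positions; a slot, its vertex and its helper have the sum
`12 * scale n m`. -/
def expo {n m : ℕ} (E : Fin m → Fin 3 → Fin n) : Pos n m → ℕ
  | .inl v => v + 1
  | .inr (.inl (t, s)) => slotExp n m t s
  | .inr (.inr (t, s)) => 12 * scale n m - slotExp n m t s - (E t s + 1)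

/-- The index set of the monomials: one for every edge, two for every slot. -/
abbrev Mon (m : ℕ) : Type := Fin m ⊕ (Fin m × Fin 3 × Bool)

/-- The three elements of a monomial: for an edge the elements `true` of its three slots, for a
slot the element `true` of the slot, the element `false` of its vertex and one of the two elements
of its helper. -/
def mono {n m : ℕ} (E : Fin m → Fin 3 → Fin n) : Mon m → Fin 3 → Pos n m × Bool
  | .inl t, l => (.inr (.inl (t, l)), true)
  | .inr (t, s, b), l =>
    if l = 0 then (.inr (.inl (t, s)), true)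
    else if l = 1 then (.inl (E t s), false)
    else (.inr (.inr (t, s)), b)

/-- `x`, `y`, `z` are the three elements of a monomial in some order. -/
def IsMono {n m : ℕ} (E : Fin m → Fin 3 → Fin n) (x y z : Pos n m × Bool) : Prop :=
  ∃ (g : Mon m) (π : Equiv.Perm (Fin 3)),
    x = mono E g (π 0) ∧ y = mono E g (π 1) ∧ z = mono E g (π 2)

/-- The sign of `b - a`. -/
def sg (a b : ℕ) : ℤ := if a < b then 1 else if b < a then -1 else 0

open Classical in
/-- The array of the hypergraph: it has the entry `1` or `-1` at the monomials, with sign the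
sign of the order of the exponents, and `0` elsewhere. -/
noncomputable def arr {n m : ℕ} (E : Fin m → Fin 3 → Fin n) (x y z : Pos n m × Bool) : ℤ :=
  if IsMono E x y z then
    sg (expo E x.1) (expo E y.1) * sg (expo E x.1) (expo E z.1) * sg (expo E y.1) (expo E z.1)
  else 0

/-- The hypergraph is 2-colourable: no edge is monochromatic. -/
def TwoColourable {n m : ℕ} (E : Fin m → Fin 3 → Fin n) : Prop :=
  ∃ τ : Fin n → Bool, ∀ t, ¬ (τ (E t 0) = τ (E t 1) ∧ τ (E t 1) = τ (E t 2))

end Pool.Agent.Helper75.CF
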